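import Pool.Agent.H459R3.Final

/-!
# Symmetric Gaussian polytopes with proportionally many vertices have cotype 2

For every `κ ≥ 1` there is one constant `C` such that for all `n ≤ N ≤ κ n` the space
`(ℝ^n, ‖·‖_P)`, `P = conv {± X_i : i ≤ N}`, has cotype `q` with constant at most `C` for all
`q ≥ 2` simultaneously (in particular cotype `2`), outside an event of probability at most
`2 exp (-n)`.

Outline. Let `G : ℓ₁^N → ℝ^n` be the Gaussian quotient map. On its kernel the norms `‖·‖₁` and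
`√N ‖·‖₂` are equivalent with constants depending on `κ` only (Kashin). For a Rademacher sum
`∑ σ_i y_i` choose an odd norm-preserving lift `f(σ) ∈ ℓ₁^N`; the part of `f` of degree at least two
takes values in the kernel, which is Hilbertian, so that the noise operator bounds the degree one
part of `f` (Pisier's argument), and `ℓ₁` has cotype `2`.
-/

set_option autoImplicit false

open MeasureTheory ProbabilityTheory

namespace Pool.Agent.Results.MP_28cf54_an.CotypeTwo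

/-- The symmetric polytope `conv {± g_i}`. -/
def poly {N n : ℕ} (g : Fin N → Fin n → ℝ) : Set (Fin n → ℝ) :=
  convexHull ℝ (Set.range g ∪ Set.range (-g))

/-- The Minkowski functional `‖x‖_P = inf {λ > 0 : x ∈ λ P}` of `P = conv {± g_i}`. -/
noncomputable def pnorm {N n : ℕ} (g : Fin N → Fin n → ℝ) (x : Fin n → ℝ) : ℝ :=
  sInf {r : ℝ | 0 < r ∧ r⁻¹ • x ∈ poly g}

/-- The function `‖·‖_P` is a norm on `ℝ^n`. -/
def IsNorm {n : ℕ} (p : (Fin n → ℝ) → ℝ) : Prop :=
  (∀ x, p x = 0 ↔ x = 0) ∧ (∀ (r : ℝ) x, p (r • x) = |r| * p x) ∧ ∀ x y, p (x + y) ≤ p x + p y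

/-- Cotype `q` with constant `C`:
`E_σ ‖∑ σ_i y_i‖^q ≥ C^{-q} ∑ ‖y_i‖^q` for all `k` and all `y_1, …, y_k`; here `σ` is uniformly
distributed on `{-1,1}^k`, a sign being encoded as `(-1)^(s i)` with `s i ∈ {0,1}`. -/
def HasCotype {n : ℕ} (p : (Fin n → ℝ) → ℝ) (q C : ℝ) : Prop :=
  ∀ (k : ℕ) (y : Fin k → Fin n → ℝ),
    C ^ (-q) * ∑ i, p (y i) ^ q ≤
      (∑ s : Fin k → Fin 2, p (∑ i, ((-1 : ℝ) ^ (s i : ℕ)) • y i) ^ q) / 2 ^ k

/-- The law of `N` independent standard Gaussian vectors in `ℝ^n`. -/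
noncomputable def gaussLaw (N n : ℕ) : Measure (Fin N → Fin n → ℝ) :=
  Measure.pi fun _ : Fin N => Measure.pi fun _ : Fin n => gaussianReal 0 1

lemma pnorm_eq_gauge {N n : ℕ} (g : Fin N → Fin n → ℝ) (x : Fin n → ℝ) :
    pnorm g x = gauge (poly g) x := by
  rw [pnorm, gauge_def']
  rfl

lemma pnorm_eq {N n : ℕ} (hN : 0 < N) {g : Fin N → Fin n → ℝ} (hg : H459R3.Surj g)
    (x : Fin n → ℝ) : pnorm g x = H459R3.xn g x := by
  rw [pnorm_eq_gauge]
  exact H459R3.gauge_eq hN hg x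

lemma isNorm_of_surj {N n : ℕ} (hN : 0 < N) {g : Fin N → Fin n → ℝ} (hg : H459R3.Surj g) :
    IsNorm (pnorm g) := by
  have e : pnorm g = H459R3.xs hg := by
    funext x
    rw [pnorm_eq hN hg, H459R3.xs_apply]
  rw [e]
  refine ⟨fun x => ⟨fun h => ?_, fun h => by rw [h, map_zero]⟩, fun r x => ?_, fun x y =>
    map_add_le_add _ x y⟩
  · rw [H459R3.xs_apply] at h
    obtain ⟨t, ht, ht1⟩ := H459R3.xn_attained hg x
    rw [h, H459R3.l1_apply] at ht1
    have h0 : t = 0 := by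
      funext i
      have := (Finset.sum_eq_zero_iff_of_nonneg (fun i _ => abs_nonneg (t i))).1 ht1 i
        (Finset.mem_univ i)
      simpa using this
    rw [← ht, h0, map_zero]
  · rw [map_smul_eq_mul, Real.norm_eq_abs]

/-- power mean inequality for uniform averages. -/
lemma avg_rpow_le {ι : Type} [Fintype ι] [DecidableEq ι] {f : (ι → Bool) → ℝ} (hf : ∀ σ, 0 ≤ f σ)
    {q : ℝ} (hq : 2 ≤ q) :
    H459R3.avg (fun σ => f σ ^ 2) ^ (q / 2) ≤ H459R3.avg (fun σ => f σ ^ q) := by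
  unfold H459R3.avg
  have h2 : (0 : ℝ) < 2 ^ Fintype.card ι := by positivity
  have key := Real.rpow_arith_mean_le_arith_mean_rpow (Finset.univ : Finset (ι → Bool))
    (fun _ => 1 / (2 : ℝ) ^ Fintype.card ι) (fun σ => f σ ^ 2) (fun _ _ => by positivity)
    (by
      rw [Finset.sum_const, Finset.card_univ, H459R3.card_cube, nsmul_eq_mul]
      push_cast
      field_simp) (fun σ _ => sq_nonneg _) (p := q / 2) (by linarith)
  rw [← Finset.mul_sum, ← Finset.mul_sum] at key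
  have e : ∀ σ, (f σ ^ 2) ^ (q / 2) = f σ ^ q := by
    intro σ
    rw [← Real.rpow_natCast (f σ) 2, ← Real.rpow_mul (hf σ)]
    congr 1
    push_cast
    ring
  simp_rw [e] at key
  calc ((∑ σ, f σ ^ 2) / 2 ^ Fintype.card ι) ^ (q / 2)
      = (1 / (2 : ℝ) ^ Fintype.card ι * ∑ σ, f σ ^ 2) ^ (q / 2) := by
        congr 1; ring
    _ ≤ _ := key
    _ = _ := by ring

lemma sum_rpow_le {k : ℕ} {a : Fin k → ℝ} (ha : ∀ i, 0 ≤ a i) {q : ℝ} (hq : 2 ≤ q) :
    ∑ i, a i ^ q ≤ (∑ i, a i ^ 2) ^ (q / 2) := by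
  have h := Finset.sum_le_sum (s := (Finset.univ : Finset (Fin k)))
    (f := fun i => a i ^ q) (g := fun i => a i ^ 2 * (∑ j, a j ^ 2) ^ (q / 2 - 1)) ?_
  · refine h.trans (le_of_eq ?_)
    rw [← Finset.sum_mul]
    set S := ∑ i, a i ^ 2 with hS
    have hS0 : 0 ≤ S := Finset.sum_nonneg fun i _ => sq_nonneg _
    rcases hS0.eq_or_lt with h0 | h0
    · rw [← h0, zero_mul, Real.zero_rpow (by linarith)]
    · nth_rw 1 [← Real.rpow_one S]
      rw [← Real.rpow_add h0]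
      congr 1
      ring
  · intro i _
    have hi : a i ^ 2 ≤ ∑ j, a j ^ 2 :=
      Finset.single_le_sum (f := fun j => a j ^ 2) (fun j _ => sq_nonneg _) (Finset.mem_univ i)
    rcases (ha i).eq_or_lt with h0 | h0
    · rw [← h0, Real.zero_rpow (by linarith)]
      have : 0 ≤ (∑ j, a j ^ 2) ^ (q / 2 - 1) :=
        Real.rpow_nonneg (Finset.sum_nonneg fun i _ => sq_nonneg _) _
      positivity
    · have e : a i ^ q = a i ^ 2 * (a i ^ 2) ^ (q / 2 - 1) := by
        rw [← Real.rpow_natCast (a i) 2, ← Real.rpow_mul h0.le, ← Real.rpow_add h0]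
        congr 1
        push_cast
        ring
      show a i ^ q ≤ _
      rw [e]
      exact mul_le_mul_of_nonneg_left (Real.rpow_le_rpow (sq_nonneg _) hi (by linarith))
        (sq_nonneg _)

lemma cotype_of_good {N n : ℕ} (hN : 0 < N) {g : Fin N → Fin n → ℝ} {K : ℝ} (hK : 1 ≤ K)
    (h : H459R3.Good2 g K) {q : ℝ} (hq : 2 ≤ q) : HasCotype (pnorm g) q (√K) := by
  obtain ⟨hg, h⟩ := h
  intro k y
  have hK0 : 0 < K := by linarith
  simp_rw [pnorm_eq hN hg]
  have h1 := h k y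
  have hms := H459R3.ms_nonneg (H459R3.xs hg) y
  have h2 : ∑ i, H459R3.xn g (y i) ^ q ≤ (K * H459R3.ms (H459R3.xs hg) y) ^ (q / 2) :=
    (sum_rpow_le (fun i => H459R3.xn_nonneg g _) hq).trans
      (Real.rpow_le_rpow (Finset.sum_nonneg fun i _ => sq_nonneg _) h1 (by linarith))
  have h3 : H459R3.ms (H459R3.xs hg) y ^ (q / 2) ≤
      H459R3.avg (fun σ => H459R3.xn g (H459R3.rad y σ) ^ q) := by
    have := avg_rpow_le (f := fun σ => H459R3.xn g (H459R3.rad y σ))
      (fun σ => H459R3.xn_nonneg g _) hq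
    exact this
  have h4 : (∑ s : Fin k → Fin 2, H459R3.xn g (∑ i, ((-1 : ℝ) ^ (s i : ℕ)) • y i) ^ q) / 2 ^ k
      = H459R3.avg (fun σ => H459R3.xn g (H459R3.rad y σ) ^ q) := by
    unfold H459R3.avg
    rw [Fintype.card_fin]
    congr 1
    have e := Equiv.sum_comp (Equiv.arrowCongr (Equiv.refl (Fin k)) H459R3.bitEquiv)
      (fun s : Fin k → Fin 2 => H459R3.xn g (∑ i, ((-1 : ℝ) ^ (s i : ℕ)) • y i) ^ q)
    rw [← e]
    refine Finset.sum_congr rfl fun σ _ => ?_
    have h2 : (∑ i, ((-1 : ℝ) ^ (((Equiv.arrowCongr (Equiv.refl (Fin k)) H459R3.bitEquiv) σ i :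
        Fin 2) : ℕ)) • y i) = H459R3.rad y σ := by
      unfold H459R3.rad
      refine Finset.sum_congr rfl fun i _ => ?_
      have : ((Equiv.arrowCongr (Equiv.refl (Fin k)) H459R3.bitEquiv) σ i : Fin 2)
        = H459R3.bitEquiv (σ i) := rfl
      rw [this, H459R3.sign_bit]
    rw [h2]
  rw [h4]
  have hsq : √K ^ (-q) = (K ^ (q / 2))⁻¹ := by
    rw [Real.sqrt_eq_rpow, ← Real.rpow_mul hK0.le, ← Real.rpow_neg hK0.le]
    congr 1
    ring
  rw [hsq, inv_mul_le_iff₀ (Real.rpow_pos_of_pos hK0 _)]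
  refine h2.trans ?_
  rw [Real.mul_rpow hK0.le hms]
  exact mul_le_mul_of_nonneg_left h3 (Real.rpow_nonneg hK0.le _)

/-- **Gaussian polytopes with proportionally many vertices have cotype 2.** For every `κ ≥ 1`
there is `C` such that, for all `1 ≤ n ≤ N ≤ κ n`, outside an event of probability at most
`2 exp (-n)` the function `‖·‖_P`, `P = conv {± X_i}`, is a norm on `ℝ^n` which has cotype `q` with
constant at most `C` for every `q ≥ 2`. -/
theorem result : ∀ κ : ℝ, 1 ≤ κ → ∃ C : ℝ, 1 ≤ C ∧ ∀ n N : ℕ, 0 < n → n ≤ N → (N : ℝ) ≤ κ * n →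
    gaussLaw N n {g | ¬ (IsNorm (pnorm g) ∧ ∀ q : ℝ, 2 ≤ q → HasCotype (pnorm g) q C)} ≤
      ENNReal.ofReal (2 * Real.exp (-n)) := by
  intro κ hκ
  obtain ⟨K, hK, h⟩ := H459R3.small_regime κ hκ
  refine ⟨√K, Real.one_le_sqrt.2 hK, fun n N hn hnN hNκ => ?_⟩
  refine le_trans (measure_mono ?_) (h N n hn hnN hNκ)
  intro g hg hgood
  exact hg ⟨isNorm_of_surj (lt_of_lt_of_le hn hnN) hgood.choose,
    fun q hq => cotype_of_good (lt_of_lt_of_le hn hnN) hK hgood hq⟩

end Pool.Agent.Results.MP_28cf54_an.CotypeTwo
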